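import Pool.Agent.AMU.Statement

open Matrix Pool.Agent.AMU

/-- The AMU conjecture holds, with colour `1` at the punctures, for every element of the commutator
subgroup of the pure braid group which does not act trivially for all `A`. -/
theorem Pool.Agent.AMU.Old.pureCommutators
    (n : ℕ) (hn : 0 < n) (f : BraidGroup n) (hf : f ∈ ⁅PureBraid n, PureBraid n⁆)
    (hf' : ∃ A : ℂˣ, rep n A f ≠ 1) : AMUHolds f := by
  rcases commutator_case n hn f hf with h | h
  · exact h
  · obtain ⟨A, hA⟩ := hf'
    exact absurd (h A) hA
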